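import Pool.Agent.P8H10.ET.StmD

/-!
# Project ET, package IND: independence of the functions
-/

set_option autoImplicit false

namespace Pool.Agent.P8H71.ET

open Pool.Agent.P8H10.ET MvPolynomial

/-- separation of the variables -/
noncomputable def sep {s : ℕ} (P : MvPolynomial (Fin 3 ⊕ Fin s) ℤ) :
    MvPolynomial (Fin s) (MvPolynomial (Fin 3) ℤ) :=
  sumRingEquiv ℤ (Fin s) (Fin 3) (rename Sum.swap P)

theorem sep_eq_zero {s : ℕ} {P : MvPolynomial (Fin 3 ⊕ Fin s) ℤ} (h : sep P = 0) : P = 0 := by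
  unfold sep at h
  have h1 : rename Sum.swap P = 0 := by
    apply (sumRingEquiv ℤ (Fin s) (Fin 3)).injective
    rw [h, map_zero]
  apply rename_injective (R := ℤ) (Sum.swap : Fin 3 ⊕ Fin s → Fin s ⊕ Fin 3)
    (Equiv.sumComm (Fin 3) (Fin s)).injective
  rw [h1, map_zero]

theorem aeval_sep {s : ℕ} (P : MvPolynomial (Fin 3 ⊕ Fin s) ℤ) (x : Fin 3 → ℂ) (y : Fin s → ℂ) :
    aeval (Sum.elim x y) P = ∑ m ∈ (sep P).support,
      aeval x ((sep P).coeff m) * ∏ k, y k ^ m k := by
  have h1 : ∀ Q : MvPolynomial (Fin 3 ⊕ Fin s) ℤ, aeval (Sum.elim x y) Q =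
      eval₂Hom ((aeval x : MvPolynomial (Fin 3) ℤ →ₐ[ℤ] ℂ) : MvPolynomial (Fin 3) ℤ →+* ℂ) y
        (sep Q) := by
    intro Q
    induction Q using MvPolynomial.induction_on with
    | C a =>
      unfold sep
      rw [rename_C, sumRingEquiv_C, eval₂Hom_C]
      simp
    | add p q hp hq =>
      unfold sep at hp hq ⊢
      rw [map_add, map_add, map_add, map_add, hp, hq]
    | mul_X p i hp =>
      unfold sep at hp ⊢
      rw [map_mul, map_mul, map_mul, map_mul, hp, rename_X, aeval_X]
      congr 1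
      rcases i with i | k
      · rw [Sum.swap_inl, sumRingEquiv_X_inr, eval₂Hom_C]
        simp
      · rw [Sum.swap_inr, sumRingEquiv_X_inl, eval₂Hom_X']
        simp
  rw [h1 P]
  exact eval₂_eq' _ _ _

/-- the substitution of multiples is injective -/
theorem scale_injective (c₄ c₆ : ℂ) (h₄ : c₄ ≠ 0) (h₆ : c₆ ≠ 0) (p : MvPolynomial (Fin 3) ℤ)
    (h : aeval ![X 0, C c₄ * X 1, C c₆ * X 2] p = (0 : MvPolynomial (Fin 3) ℂ)) : p = 0 := by
  have h1 : aeval ![X 0, C c₄⁻¹ * X 1, C c₆⁻¹ * X 2]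
      (aeval ![X 0, C c₄ * X 1, C c₆ * X 2] p : MvPolynomial (Fin 3) ℂ) =
        (MvPolynomial.map (Int.castRingHom ℂ) p : MvPolynomial (Fin 3) ℂ) := by
    clear h
    induction p using MvPolynomial.induction_on with
    | C a => simp
    | add p q hp hq => rw [map_add, map_add, hp, hq, map_add]
    | mul_X p i hp =>
      rw [map_mul, map_mul, hp, map_mul, map_X, aeval_X]
      congr 1
      fin_cases i
      · simp
      · simp only [Fin.mk_one, Matrix.cons_val_one, Matrix.cons_val_zero, map_mul, aeval_X, aeval_C]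
        rw [← mul_assoc, MvPolynomial.algebraMap_eq, ← C_mul, mul_inv_cancel₀ h₄, C_1, one_mul]
      · simp only [Fin.reduceFinMk, Matrix.cons_val, map_mul, aeval_X, aeval_C]
        rw [← mul_assoc, MvPolynomial.algebraMap_eq, ← C_mul, mul_inv_cancel₀ h₆, C_1, one_mul]
  rw [h, map_zero] at h1
  apply map_injective (Int.castRingHom ℂ) (RingHom.injective_int _)
  rw [← h1, map_zero]

/-- package IND -/
theorem ind : S_FUN1 → S_GS → S_IND := by
  classical
  intro hF hG τ₀ hτ hτi s l l' hl hli c₄ c₆ h₄ h₆ P hP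
  have hτ0 : τ₀ ≠ 0 := by
    intro h
    rw [h] at hτi
    simp at hτi
  apply sep_eq_zero
  obtain ⟨Q, hQ⟩ : ∃ Q, Q = sep P := ⟨_, rfl⟩
  rw [← hQ]
  by_contra hQ0
  let e := Q.support.equivFin
  -- the data
  let L : (Fin s →₀ ℕ) → ℂ := fun m => ∑ k, (m k : ℂ) * l k
  let L' : (Fin s →₀ ℕ) → ℂ := fun m => ∑ k, (m k : ℂ) * l' k
  let B : (Fin s →₀ ℕ) → MvPolynomial (Fin 3) ℂ := fun m =>
    aeval ![X 0, C c₄ * X 1, C c₆ * X 2] (Q.coeff m)
  have hexp : ∀ m : Fin s →₀ ℕ, IsAlgebraic ℚ (Complex.exp (L m)) := by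
    intro m
    change IsAlgebraic ℚ (Complex.exp (∑ k, (m k : ℂ) * l k))
    rw [Complex.exp_sum]
    refine (mem_algebraicClosure_iff (F := ℚ) (E := ℂ)).1 ?_
    refine prod_mem fun k _ => ?_
    rw [Complex.exp_nat_mul]
    exact pow_mem ((mem_algebraicClosure_iff (F := ℚ) (E := ℂ)).2 (hl k)) _
  have hinj : ∀ m m' : Fin s →₀ ℕ, Complex.exp (L m / τ₀) = Complex.exp (L m' / τ₀) → m = m' := by
    intro m m' h
    rw [Complex.exp_eq_exp_iff_exists_int] at h
    obtain ⟨n, hn⟩ := h
    have h1 : L m - L m' = 2 * Real.pi * Complex.I * n * τ₀ := by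
      field_simp at hn
      linear_combination hn
    have h2 : IsAlgebraic ℚ (Complex.exp (L m - L m')) := by
      rw [Complex.exp_sub, div_eq_mul_inv]
      exact (hexp m).mul (hexp m').inv
    have h3 := hG τ₀ hτ hτi (L m - L m') h2 n h1
    rw [h3] at h1
    have h4 : ∑ k, ((m k : ℚ) - m' k) • l k = 0 := by
      have : ∑ k, ((m k : ℚ) - m' k) • l k = L m - L m' := by
        change _ = (∑ k, (m k : ℂ) * l k) - ∑ k, (m' k : ℂ) * l k
        rw [← Finset.sum_sub_distrib]
        refine Finset.sum_congr rfl fun k _ => ?_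
        rw [Rat.smul_def]
        push_cast
        ring
      rw [this, h1]
      simp
    have h5 := Fintype.linearIndependent_iff.1 hli _ h4
    ext k
    have h6 := h5 k
    have h7 : (m k : ℚ) = m' k := by linarith
    exact_mod_cast h7
  have key := hF Q.support.card (fun i => C (Complex.exp (L' (e.symm i).1)) * B (e.symm i).1)
    (fun i => L (e.symm i).1 / τ₀) (by
      intro i j hij h
      apply hij
      have := hinj _ _ h
      exact e.symm.injective (Subtype.ext this)) (by
      intro τ hτp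
      have hz : τ / τ₀ * τ₀ = τ := div_mul_cancel₀ _ hτ0
      have h1 := hP (τ / τ₀) (by rw [hz]; exact hτp)
      rw [hz, aeval_sep, ← hQ] at h1
      rw [← h1, ← Finset.sum_coe_sort Q.support]
      refine Fintype.sum_equiv e.symm _ _ fun i => ?_
      obtain ⟨m, hm⟩ := e.symm i
      change aeval ![τ, EG 4 τ, EG 6 τ] (C (Complex.exp (L' m)) * B m) * Complex.exp (L m / τ₀ * τ) =
        aeval ![τ, c₄ * EG 4 τ, c₆ * EG 6 τ] (Q.coeff m) *
          ∏ k, Complex.exp (τ / τ₀ * l k + l' k) ^ m k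
      have h2 : ∏ k, Complex.exp (τ / τ₀ * l k + l' k) ^ m k =
          Complex.exp (L' m) * Complex.exp (L m / τ₀ * τ) := by
        rw [← Complex.exp_add]
        have : ∀ k, Complex.exp (τ / τ₀ * l k + l' k) ^ m k =
            Complex.exp ((m k : ℂ) * (τ / τ₀ * l k + l' k)) := fun k => (Complex.exp_nat_mul _ _).symm
        rw [Finset.prod_congr rfl fun k _ => this k, ← Complex.exp_sum]
        congr 1
        change _ = (∑ k, (m k : ℂ) * l' k) + (∑ k, (m k : ℂ) * l k) / τ₀ * τ
        rw [Finset.sum_div, Finset.sum_mul, ← Finset.sum_add_distrib]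
        refine Finset.sum_congr rfl fun k _ => ?_
        field_simp
        ring
      have h3 : ∀ p : MvPolynomial (Fin 3) ℤ, aeval ![τ, EG 4 τ, EG 6 τ]
          (aeval ![X 0, C c₄ * X 1, C c₆ * X 2] p : MvPolynomial (Fin 3) ℂ) =
            aeval ![τ, c₄ * EG 4 τ, c₆ * EG 6 τ] p := by
        intro p
        induction p using MvPolynomial.induction_on with
        | C a => simp
        | add p q hp hq => rw [map_add, map_add, hp, hq, map_add]
        | mul_X p i hp =>
          rw [map_mul, map_mul, hp, map_mul, aeval_X, aeval_X]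
          congr 1
          fin_cases i
          · simp
          · simp
          · simp
      rw [map_mul, h2]
      change _ * aeval ![τ, EG 4 τ, EG 6 τ]
        (aeval ![X 0, C c₄ * X 1, C c₆ * X 2] (Q.coeff m) : MvPolynomial (Fin 3) ℂ) * _ = _
      rw [h3, aeval_C, Algebra.algebraMap_self, RingHom.id_apply]
      ring)
  obtain ⟨m, hm⟩ := Finset.nonempty_of_ne_empty (fun h => hQ0 (support_eq_empty.1 h))
  have h1 := key (e ⟨m, hm⟩)
  simp only [Equiv.symm_apply_apply] at h1
  have h2 : B m = 0 := by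
    rcases mul_eq_zero.1 h1 with h | h
    · exfalso
      rw [C_eq_zero] at h
      exact Complex.exp_ne_zero _ h
    · exact h
  exact mem_support_iff.1 hm (scale_injective c₄ c₆ h₄ h₆ _ h2)

end Pool.Agent.P8H71.ET
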