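import Pool.Agent.P8H10.ET.StmF

/-!
# Project ET, package ANE: the functions `EP z` and `EZ z` are analytic in `τ`
-/

set_option autoImplicit false

open Filter Topology

namespace Pool.Agent.P8H71.ET.An

open Pool.Agent.P8H10.ET

/-- pairs of integers as functions -/
def e : ℤ × ℤ ≃ (Fin 2 → ℤ) := (finTwoArrowEquiv ℤ).symm

/-- the size of a pair of integers -/
noncomputable def nn (p : ℤ × ℤ) : ℝ := ‖e p‖

theorem nn_nonneg (p : ℤ × ℤ) : 0 ≤ nn p := norm_nonneg _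

theorem fst_le (p : ℤ × ℤ) : |(p.1 : ℝ)| ≤ nn p := by
  have h := norm_le_pi_norm (e p) 0
  rw [Int.norm_eq_abs] at h
  exact h

theorem snd_le (p : ℤ × ℤ) : |(p.2 : ℝ)| ≤ nn p := by
  have h := norm_le_pi_norm (e p) 1
  rw [Int.norm_eq_abs] at h
  exact h

theorem nn_le {p : ℤ × ℤ} {r : ℝ} (h1 : |(p.1 : ℝ)| ≤ r) (h2 : |(p.2 : ℝ)| ≤ r) : nn p ≤ r := by
  have hr : 0 ≤ r := (abs_nonneg _).trans h1
  refine (pi_norm_le_iff_of_nonneg hr).2 fun i => ?_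
  rw [Int.norm_eq_abs]
  fin_cases i
  · exact h1
  · exact h2

theorem nn_pos {p : ℤ × ℤ} (hp : p ≠ 0) : 0 < nn p := by
  refine norm_pos_iff.2 fun h => hp ?_
  have h0 := congrFun h 0
  have h1 := congrFun h 1
  exact Prod.ext h0 h1

theorem summable_nn : Summable (fun p : ℤ × ℤ => nn p ^ (-(3 : ℝ))) :=
  (e.summable_iff (f := fun x : Fin 2 → ℤ => ‖x‖ ^ (-(3 : ℝ)))).mpr
    (EisensteinSeries.summable_one_div_norm_rpow (by norm_num))

theorem lower {τ : ℂ} (hτ : τ.im ≠ 0) : ∃ c : ℝ, 0 < c ∧ ∀ p : ℤ × ℤ,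
    c * nn p ≤ ‖(p.1 : ℂ) + p.2 * τ‖ := by
  have hB : 0 < |τ.im| := abs_pos.2 hτ
  set K : ℝ := 1 + (1 + ‖τ‖) / |τ.im| with hK
  have hK0 : 0 < K := by positivity
  refine ⟨K⁻¹, inv_pos.2 hK0, fun p => ?_⟩
  rw [inv_mul_le_iff₀ hK0]
  set w : ℂ := (p.1 : ℂ) + p.2 * τ with hw
  have h1 : |(p.2 : ℝ)| * |τ.im| ≤ ‖w‖ := by
    rw [← abs_mul]
    have h2 : w.im = p.2 * τ.im := by
      rw [hw]
      simp
    rw [← h2]
    exact Complex.abs_im_le_norm w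
  have h2 : |(p.2 : ℝ)| ≤ ‖w‖ / |τ.im| := by
    rw [le_div_iff₀ hB]
    exact h1
  have h3 : |(p.1 : ℝ)| ≤ ‖w‖ + |(p.2 : ℝ)| * ‖τ‖ := by
    have h4 : (p.1 : ℂ) = w - p.2 * τ := by
      rw [hw]
      ring
    have h5 : ‖(p.1 : ℂ)‖ ≤ ‖w‖ + ‖(p.2 : ℂ) * τ‖ := by
      rw [h4]
      exact norm_sub_le _ _
    rw [norm_mul, Complex.norm_intCast, Complex.norm_intCast] at h5
    exact h5
  have hw0 := norm_nonneg w
  have hτ0 := norm_nonneg τ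
  have h6 : K * ‖w‖ = ‖w‖ + ‖w‖ / |τ.im| + ‖w‖ / |τ.im| * ‖τ‖ := by
    rw [hK]
    ring
  have h7 : 0 ≤ ‖w‖ / |τ.im| := by positivity
  have h8 : 0 ≤ ‖w‖ / |τ.im| * ‖τ‖ := by positivity
  have h9 : |(p.2 : ℝ)| * ‖τ‖ ≤ ‖w‖ / |τ.im| * ‖τ‖ := mul_le_mul_of_nonneg_right h2 hτ0
  apply nn_le
  · rw [h6]
    linarith
  · rw [h6]
    linarith

/-- all lattice points different from `z` are at distance at least `κ (1 + |p|)` -/
theorem away (z : ℂ) {τ : ℂ} (hτ : τ.im ≠ 0) : ∃ κ : ℝ, 0 < κ ∧ ∀ p : ℤ × ℤ,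
    z ≠ (p.1 : ℂ) + p.2 * τ → κ * (1 + nn p) ≤ ‖z - ((p.1 : ℂ) + p.2 * τ)‖ := by
  classical
  obtain ⟨c, hc, hlow⟩ := lower hτ
  obtain ⟨N, hN⟩ := exists_nat_ge (2 * (‖z‖ + c) / c)
  let F : Finset (ℤ × ℤ) := ((Finset.Icc (-(N : ℤ)) N) ×ˢ (Finset.Icc (-(N : ℤ)) N)).filter
    fun p => z ≠ (p.1 : ℂ) + p.2 * τ
  obtain ⟨κ₁, hκ₁, hF⟩ : ∃ κ₁ : ℝ, 0 < κ₁ ∧ ∀ p ∈ F,
      κ₁ * (1 + nn p) ≤ ‖z - ((p.1 : ℂ) + p.2 * τ)‖ := by
    rcases F.eq_empty_or_nonempty with hE | hne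
    · refine ⟨1, one_pos, fun p hp => ?_⟩
      rw [hE] at hp
      simp at hp
    · obtain ⟨q, hq, hmin⟩ := Finset.exists_min_image F
        (fun p => ‖z - ((p.1 : ℂ) + p.2 * τ)‖ / (1 + nn p)) hne
      have hq' := (Finset.mem_filter.1 hq).2
      have h1 : 0 < ‖z - ((q.1 : ℂ) + q.2 * τ)‖ := norm_pos_iff.2 (sub_ne_zero.2 hq')
      have h2 : 0 < 1 + nn q := by linarith [nn_nonneg q]
      refine ⟨‖z - ((q.1 : ℂ) + q.2 * τ)‖ / (1 + nn q), div_pos h1 h2, fun p hp => ?_⟩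
      have h3 : 0 < 1 + nn p := by linarith [nn_nonneg p]
      have h4 := hmin p hp
      rw [le_div_iff₀ h3] at h4
      exact h4
  refine ⟨min κ₁ (c / 4), lt_min hκ₁ (by positivity), fun p hp => ?_⟩
  have h3 : 0 ≤ 1 + nn p := by linarith [nn_nonneg p]
  by_cases hpF : p ∈ F
  · exact (mul_le_mul_of_nonneg_right (min_le_left _ _) h3).trans (hF p hpF)
  · have hbig : (N : ℝ) ≤ nn p := by
      by_contra hcon
      push Not at hcon
      apply hpF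
      have h1 := (fst_le p).trans hcon.le
      have h2 := (snd_le p).trans hcon.le
      rw [abs_le] at h1 h2
      refine Finset.mem_filter.2 ⟨Finset.mem_product.2 ⟨Finset.mem_Icc.2 ⟨?_, ?_⟩,
        Finset.mem_Icc.2 ⟨?_, ?_⟩⟩, hp⟩
      · exact_mod_cast h1.1
      · exact_mod_cast h1.2
      · exact_mod_cast h2.1
      · exact_mod_cast h2.2
    have h4 : 2 * (‖z‖ + c) / c ≤ nn p := hN.trans hbig
    rw [div_le_iff₀ hc] at h4
    have h5 := hlow p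
    have h6 : ‖(p.1 : ℂ) + p.2 * τ‖ - ‖z‖ ≤ ‖z - ((p.1 : ℂ) + p.2 * τ)‖ := by
      rw [norm_sub_rev]
      exact norm_sub_norm_le _ _
    have h7 : min κ₁ (c / 4) * (1 + nn p) ≤ c / 4 * (1 + nn p) :=
      mul_le_mul_of_nonneg_right (min_le_right _ _) h3
    have h8 := norm_nonneg z
    nlinarith

/-- the same for all `τ` in a disc -/
theorem away' {z τ₀ : ℂ} {κ : ℝ} {p : ℤ × ℤ}
    (h : κ * (1 + nn p) ≤ ‖z - ((p.1 : ℂ) + p.2 * τ₀)‖) {τ : ℂ} (hτ : ‖τ - τ₀‖ < κ / 2) :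
    κ / 2 * (1 + nn p) ≤ ‖z - ((p.1 : ℂ) + p.2 * τ)‖ := by
  have h1 : ‖z - ((p.1 : ℂ) + p.2 * τ₀)‖ ≤ ‖z - ((p.1 : ℂ) + p.2 * τ)‖ + nn p * (κ / 2) := by
    have h2 : z - ((p.1 : ℂ) + p.2 * τ₀) = (z - ((p.1 : ℂ) + p.2 * τ)) + p.2 * (τ - τ₀) := by ring
    rw [h2]
    refine (norm_add_le _ _).trans (add_le_add le_rfl ?_)
    rw [norm_mul, Complex.norm_intCast]
    exact mul_le_mul (snd_le p) hτ.le (norm_nonneg _) (nn_nonneg p)
  have h3 : 0 < κ := by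
    have := norm_nonneg (τ - τ₀)
    linarith
  nlinarith

/-- general criterion -/
theorem analytic_tsum {τ₀ : ℂ} {r C₁ C₂ : ℝ} (hr : 0 < r) (F : ℤ × ℤ → ℂ → ℂ)
    (hF : ∀ p, ∀ τ : ℂ, ‖τ - τ₀‖ < r → DifferentiableAt ℂ (F p) τ)
    (h0 : ∀ τ : ℂ, ‖τ - τ₀‖ < r → ‖F 0 τ‖ ≤ C₂)
    (h1 : ∀ p, p ≠ 0 → ∀ τ : ℂ, ‖τ - τ₀‖ < r → ‖F p τ‖ * (1 + nn p) ^ 3 ≤ C₁) :
    AnalyticAt ℂ (fun τ => ∑' p, F p τ) τ₀ := by
  classical
  have hU : IsOpen (Metric.ball τ₀ r) := Metric.isOpen_ball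
  have hC₂ : 0 ≤ C₂ := (norm_nonneg _).trans (h0 τ₀ (by simpa using hr))
  have hsum : Summable (fun p : ℤ × ℤ => C₁ * nn p ^ (-(3 : ℝ)) + if p = 0 then C₂ else 0) :=
    (summable_nn.mul_left C₁).add (hasSum_ite_eq 0 C₂).summable
  have hd := Complex.differentiableOn_tsum_of_summable_norm (U := Metric.ball τ₀ r)
    (F := F) hsum (fun p τ hτ => (hF p τ (mem_ball_iff_norm.1 hτ)).differentiableWithinAt) hU ?_
  · exact hd.analyticAt (hU.mem_nhds (Metric.mem_ball_self hr))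
  · intro p τ hτ
    have hτ' := mem_ball_iff_norm.1 hτ
    by_cases hp : p = 0
    · subst hp
      rw [if_pos rfl]
      have h2 := h0 τ hτ'
      have h3 : C₁ * nn 0 ^ (-(3 : ℝ)) = 0 := by
        have : nn 0 = 0 := by
          refine le_antisymm (nn_le (r := 0) ?_ ?_) (nn_nonneg 0)
          · simp
          · simp
        rw [this, Real.zero_rpow (by norm_num), mul_zero]
      rw [h3, zero_add]
      exact h2
    · rw [if_neg hp, add_zero]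
      have h2 := h1 p hp τ hτ'
      have h3 := nn_pos hp
      rw [Real.rpow_neg h3.le, ← div_eq_mul_inv]
      have h4 : nn p ^ (3 : ℝ) = nn p ^ 3 := by
        rw [← Real.rpow_natCast]
        norm_num
      rw [h4, le_div_iff₀ (by positivity)]
      refine le_trans ?_ h2
      refine mul_le_mul_of_nonneg_left ?_ (norm_nonneg _)
      exact pow_le_pow_left₀ h3.le (by linarith) 3

/-- package ANE -/
theorem ane : S_ANE := by
  intro z τ₀ hτ₀ hoff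
  obtain ⟨κ₁, hκ₁, h1⟩ := away z hτ₀
  obtain ⟨κ₂, hκ₂, h2⟩ := away 0 hτ₀
  set κ : ℝ := min κ₁ κ₂ with hκ
  have hκ0 : 0 < κ := lt_min hκ₁ hκ₂
  set δ : ℝ := κ / 2 with hδ
  have hδ0 : 0 < δ := by positivity
  have hne : ∀ p : ℤ × ℤ, p ≠ 0 → (0 : ℂ) ≠ (p.1 : ℂ) + p.2 * τ₀ := by
    intro p hp h
    obtain ⟨c, hc, hlow⟩ := lower hτ₀
    have h3 := hlow p
    rw [← h, norm_zero] at h3
    have := mul_pos hc (nn_pos hp)
    linarith
  -- the two lower bounds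
  have hz : ∀ (p : ℤ × ℤ) (τ : ℂ), ‖τ - τ₀‖ < δ →
      δ * (1 + nn p) ≤ ‖z - ((p.1 : ℂ) + p.2 * τ)‖ := by
    intro p τ hτ
    apply away' (κ := κ) _ hτ
    have h3 : 0 ≤ 1 + nn p := by linarith [nn_nonneg p]
    exact (mul_le_mul_of_nonneg_right (min_le_left _ _) h3).trans (h1 p (hoff p.1 p.2))
  have hw : ∀ (p : ℤ × ℤ), p ≠ 0 → ∀ (τ : ℂ), ‖τ - τ₀‖ < δ →
      δ * (1 + nn p) ≤ ‖(p.1 : ℂ) + p.2 * τ‖ := by
    intro p hp τ hτ
    have h3 : 0 ≤ 1 + nn p := by linarith [nn_nonneg p]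
    have h4 := away' (κ := κ) (z := 0) (p := p) (τ₀ := τ₀)
      ((mul_le_mul_of_nonneg_right (min_le_right _ _) h3).trans (h2 p (hne p hp))) hτ
    rwa [zero_sub, norm_neg] at h4
  have hzne : ∀ (p : ℤ × ℤ) (τ : ℂ), ‖τ - τ₀‖ < δ → z - ((p.1 : ℂ) + p.2 * τ) ≠ 0 := by
    intro p τ hτ h
    have h3 := hz p τ hτ
    rw [h, norm_zero] at h3
    have : 0 < δ * (1 + nn p) := mul_pos hδ0 (by linarith [nn_nonneg p])
    linarith
  have hwne : ∀ (p : ℤ × ℤ), p ≠ 0 → ∀ (τ : ℂ), ‖τ - τ₀‖ < δ → (p.1 : ℂ) + p.2 * τ ≠ 0 := by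
    intro p hp τ hτ h
    have h3 := hw p hp τ hτ
    rw [h, norm_zero] at h3
    have : 0 < δ * (1 + nn p) := mul_pos hδ0 (by linarith [nn_nonneg p])
    linarith
  have hup : ∀ (p : ℤ × ℤ) (τ : ℂ), ‖τ - τ₀‖ < δ →
      ‖(p.1 : ℂ) + p.2 * τ‖ ≤ (1 + ‖τ₀‖ + δ) * (1 + nn p) := by
    intro p τ hτ
    have h3 : ‖τ‖ ≤ ‖τ₀‖ + δ := by
      have h4 : τ = τ₀ + (τ - τ₀) := by ring
      rw [h4]
      exact (norm_add_le _ _).trans (by linarith)
    have h5 : ‖(p.1 : ℂ) + p.2 * τ‖ ≤ nn p + nn p * (‖τ₀‖ + δ) := by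
      refine (norm_add_le _ _).trans (add_le_add ?_ ?_)
      · rw [Complex.norm_intCast]
        exact fst_le p
      · rw [norm_mul, Complex.norm_intCast]
        exact mul_le_mul (snd_le p) h3 (norm_nonneg _) (nn_nonneg p)
    have := nn_nonneg p
    have := norm_nonneg τ₀
    nlinarith
  constructor
  · refine analytic_tsum (r := δ) (C₁ := ‖z‖ * (2 * (1 + ‖τ₀‖ + δ) + ‖z‖) / δ ^ 4)
      (C₂ := ‖1 / z ^ 2‖) hδ0
      (fun (p : ℤ × ℤ) (τ : ℂ) => 1 / (z - ((p.1 : ℂ) + p.2 * τ)) ^ 2 -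
        1 / ((p.1 : ℂ) + p.2 * τ) ^ 2) ?_ ?_ ?_
    · intro p τ hτ
      by_cases hp : p = 0
      · subst hp
        have : (fun τ : ℂ => 1 / (z - ((((0 : ℤ × ℤ).1 : ℤ) : ℂ) + (((0 : ℤ × ℤ).2 : ℤ) : ℂ) * τ)) ^ 2 -
            1 / ((((0 : ℤ × ℤ).1 : ℤ) : ℂ) + (((0 : ℤ × ℤ).2 : ℤ) : ℂ) * τ) ^ 2) =
            fun _ => 1 / z ^ 2 := by
          funext τ
          simp
        rw [this]
        exact differentiableAt_const _
      · have h3 := hzne p τ hτ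
        have h4 := hwne p hp τ hτ
        refine DifferentiableAt.sub (DifferentiableAt.div (by fun_prop) (by fun_prop) (pow_ne_zero 2 h3))
          (DifferentiableAt.div (by fun_prop) (by fun_prop) (pow_ne_zero 2 h4))
    · intro τ _
      simp
    · intro p hp τ hτ
      have h3 := hzne p τ hτ
      have h4 := hwne p hp τ hτ
      have h5 := hz p τ hτ
      have h6 := hw p hp τ hτ
      have h7 := hup p τ hτ
      have hN : 0 < 1 + nn p := by linarith [nn_nonneg p]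
      set w : ℂ := (p.1 : ℂ) + p.2 * τ with hwdef
      have h8 : 1 / (z - w) ^ 2 - 1 / w ^ 2 = z * (2 * w - z) / (w ^ 2 * (z - w) ^ 2) := by
        field_simp
        ring
      rw [h8, norm_div, norm_mul, norm_mul, norm_pow, norm_pow, div_mul_eq_mul_div,
        le_div_iff₀ (by positivity)]
      have h9 : ‖2 * w - z‖ ≤ (2 * (1 + ‖τ₀‖ + δ) + ‖z‖) * (1 + nn p) := by
        refine (norm_sub_le _ _).trans ?_
        rw [norm_mul, Complex.norm_two]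
        have := norm_nonneg z
        have := nn_nonneg p
        nlinarith
      have hden : (δ * (1 + nn p)) ^ 2 * (δ * (1 + nn p)) ^ 2 ≤ ‖w‖ ^ 2 * ‖z - w‖ ^ 2 := by
        have h10 : 0 ≤ δ * (1 + nn p) := by positivity
        exact mul_le_mul (pow_le_pow_left₀ h10 h6 2) (pow_le_pow_left₀ h10 h5 2) (by positivity)
          (by positivity)
      have hpos : 0 < ‖w‖ ^ 2 * ‖z - w‖ ^ 2 :=
        mul_pos (pow_pos (norm_pos_iff.2 h4) 2) (pow_pos (norm_pos_iff.2 h3) 2)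
      rw [div_mul_eq_mul_div, div_le_iff₀ hpos]
      calc ‖z‖ * ‖2 * w - z‖ * (1 + nn p) ^ 3 * δ ^ 4
          ≤ ‖z‖ * ((2 * (1 + ‖τ₀‖ + δ) + ‖z‖) * (1 + nn p)) * (1 + nn p) ^ 3 * δ ^ 4 := by
            gcongr
        _ = ‖z‖ * (2 * (1 + ‖τ₀‖ + δ) + ‖z‖) * ((δ * (1 + nn p)) ^ 2 * (δ * (1 + nn p)) ^ 2) := by
            ring
        _ ≤ ‖z‖ * (2 * (1 + ‖τ₀‖ + δ) + ‖z‖) * (‖w‖ ^ 2 * ‖z - w‖ ^ 2) := by
            apply mul_le_mul_of_nonneg_left hden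
            positivity
  · refine analytic_tsum (r := δ) (C₁ := ‖z‖ ^ 2 / δ ^ 3)
      (C₂ := ‖1 / z‖) hδ0
      (fun (p : ℤ × ℤ) (τ : ℂ) => 1 / (z - ((p.1 : ℂ) + p.2 * τ)) + 1 / ((p.1 : ℂ) + p.2 * τ) +
        z / ((p.1 : ℂ) + p.2 * τ) ^ 2) ?_ ?_ ?_
    · intro p τ hτ
      by_cases hp : p = 0
      · subst hp
        have : (fun τ : ℂ => 1 / (z - ((((0 : ℤ × ℤ).1 : ℤ) : ℂ) + (((0 : ℤ × ℤ).2 : ℤ) : ℂ) * τ)) +
            1 / ((((0 : ℤ × ℤ).1 : ℤ) : ℂ) + (((0 : ℤ × ℤ).2 : ℤ) : ℂ) * τ) +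
            z / ((((0 : ℤ × ℤ).1 : ℤ) : ℂ) + (((0 : ℤ × ℤ).2 : ℤ) : ℂ) * τ) ^ 2) =
            fun _ => 1 / z := by
          funext τ
          simp
        rw [this]
        exact differentiableAt_const _
      · have h3 := hzne p τ hτ
        have h4 := hwne p hp τ hτ
        refine DifferentiableAt.add (DifferentiableAt.add
          (DifferentiableAt.div (by fun_prop) (by fun_prop) h3)
          (DifferentiableAt.div (by fun_prop) (by fun_prop) h4))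
          (DifferentiableAt.div (by fun_prop) (by fun_prop) (pow_ne_zero 2 h4))
    · intro τ _
      simp
    · intro p hp τ hτ
      have h3 := hzne p τ hτ
      have h4 := hwne p hp τ hτ
      have h5 := hz p τ hτ
      have h6 := hw p hp τ hτ
      have hN : 0 < 1 + nn p := by linarith [nn_nonneg p]
      set w : ℂ := (p.1 : ℂ) + p.2 * τ with hwdef
      have h8 : 1 / (z - w) + 1 / w + z / w ^ 2 = z ^ 2 / (w ^ 2 * (z - w)) := by
        field_simp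
        ring
      rw [h8, norm_div, norm_mul, norm_pow, norm_pow, div_mul_eq_mul_div,
        le_div_iff₀ (by positivity)]
      have hden : (δ * (1 + nn p)) ^ 2 * (δ * (1 + nn p)) ≤ ‖w‖ ^ 2 * ‖z - w‖ := by
        have h10 : 0 ≤ δ * (1 + nn p) := by positivity
        exact mul_le_mul (pow_le_pow_left₀ h10 h6 2) h5 (by positivity)
          (by positivity)
      have hpos : 0 < ‖w‖ ^ 2 * ‖z - w‖ :=
        mul_pos (pow_pos (norm_pos_iff.2 h4) 2) (norm_pos_iff.2 h3)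
      rw [div_mul_eq_mul_div, div_le_iff₀ hpos]
      calc ‖z‖ ^ 2 * (1 + nn p) ^ 3 * δ ^ 3
          = ‖z‖ ^ 2 * ((δ * (1 + nn p)) ^ 2 * (δ * (1 + nn p))) := by ring
        _ ≤ ‖z‖ ^ 2 * (‖w‖ ^ 2 * ‖z - w‖) := by
            apply mul_le_mul_of_nonneg_left hden
            positivity

end Pool.Agent.P8H71.ET.An
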