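import Pool.Agent.P8H10.ET.StmF

/-!
# Project ET, package IND3: independence of the functions, one point of the curve
-/

set_option autoImplicit false

namespace Pool.Agent.P8H71.ET.I3

open Pool.Agent.P8H10.ET MvPolynomial

/-- separation of the variables -/
noncomputable def sep {n s : ℕ} (P : MvPolynomial (Fin n ⊕ Fin s) ℤ) :
    MvPolynomial (Fin s) (MvPolynomial (Fin n) ℤ) :=
  sumRingEquiv ℤ (Fin s) (Fin n) (rename Sum.swap P)

theorem sep_eq_zero {n s : ℕ} {P : MvPolynomial (Fin n ⊕ Fin s) ℤ} (h : sep P = 0) : P = 0 := by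
  unfold sep at h
  have h1 : rename Sum.swap P = 0 := by
    apply (sumRingEquiv ℤ (Fin s) (Fin n)).injective
    rw [h, map_zero]
  apply rename_injective (R := ℤ) (Sum.swap : Fin n ⊕ Fin s → Fin s ⊕ Fin n)
    (Equiv.sumComm (Fin n) (Fin s)).injective
  rw [h1, map_zero]

theorem aeval_sep {n s : ℕ} (P : MvPolynomial (Fin n ⊕ Fin s) ℤ) (x : Fin n → ℂ) (y : Fin s → ℂ) :
    aeval (Sum.elim x y) P = ∑ m ∈ (sep P).support,
      aeval x ((sep P).coeff m) * ∏ k, y k ^ m k := by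
  have h1 : ∀ Q : MvPolynomial (Fin n ⊕ Fin s) ℤ, aeval (Sum.elim x y) Q =
      eval₂Hom ((aeval x : MvPolynomial (Fin n) ℤ →ₐ[ℤ] ℂ) : MvPolynomial (Fin n) ℤ →+* ℂ) y
        (sep Q) := by
    intro Q
    induction Q using MvPolynomial.induction_on with
    | C a =>
      unfold sep
      rw [rename_C, sumRingEquiv_C, eval₂Hom_C]
      simp
    | add p q hp hq =>
      unfold sep at hp hq ⊢
      rw [map_add, map_add, map_add, map_add, hp, hq]
    | mul_X p i hp =>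
      unfold sep at hp ⊢
      rw [map_mul, map_mul, map_mul, map_mul, hp, rename_X, aeval_X]
      congr 1
      rcases i with i | k
      · rw [Sum.swap_inl, sumRingEquiv_X_inr, eval₂Hom_C]
        simp
      · rw [Sum.swap_inr, sumRingEquiv_X_inl, eval₂Hom_X']
        simp
  rw [h1 P]
  exact eval₂_eq' _ _ _

/-- evaluation after a substitution -/
theorem eval_sub (x : Fin 5 → ℂ) (g : Fin 5 → MvPolynomial (Fin 5) ℂ)
    (p : MvPolynomial (Fin 5) ℤ) : eval x (aeval g p) = aeval (fun i => eval x (g i)) p := by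
  induction p using MvPolynomial.induction_on with
  | C a => simp
  | add p q hp hq => rw [map_add, map_add, map_add, hp, hq]
  | mul_X p i hp => rw [map_mul, map_mul, map_mul, hp, aeval_X, aeval_X]

/-- the substitution -/
noncomputable def gg (c₄ c₆ d c₃ κ : ℂ) : Fin 5 → MvPolynomial (Fin 5) ℂ :=
  ![X 0, C c₄ * X 1, C c₆ * X 2, C d * X 0 * X 3 - C κ, C c₃ * X 4]

theorem eval_gg (c₄ c₆ d c₃ κ : ℂ) (x : Fin 5 → ℂ) (p : MvPolynomial (Fin 5) ℤ) :
    eval x (aeval (gg c₄ c₆ d c₃ κ) p) =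
      aeval ![x 0, c₄ * x 1, c₆ * x 2, d * x 0 * x 3 - κ, c₃ * x 4] p := by
  rw [eval_sub]
  congr 2
  funext i
  fin_cases i <;> simp [gg]

/-- the substitution is injective -/
theorem gg_injective (c₄ c₆ d c₃ κ : ℂ) (h₄ : c₄ ≠ 0) (h₆ : c₆ ≠ 0) (hd : d ≠ 0) (h₃ : c₃ ≠ 0)
    (p : MvPolynomial (Fin 5) ℤ) (h : aeval (gg c₄ c₆ d c₃ κ) p = 0) : p = 0 := by
  have h1 : (X 0 : MvPolynomial (Fin 5) ℂ) * MvPolynomial.map (Int.castRingHom ℂ) p = 0 := by
    apply MvPolynomial.funext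
    intro y
    rw [map_mul, eval_X, map_zero]
    by_cases hy : y 0 = 0
    · rw [hy, zero_mul]
    · have h2 := eval_gg c₄ c₆ d c₃ κ ![y 0, y 1 / c₄, y 2 / c₆, (y 3 + κ) / (d * y 0), y 4 / c₃] p
      rw [h, map_zero] at h2
      have h3 : ![(![y 0, y 1 / c₄, y 2 / c₆, (y 3 + κ) / (d * y 0), y 4 / c₃] : Fin 5 → ℂ) 0,
          c₄ * (![y 0, y 1 / c₄, y 2 / c₆, (y 3 + κ) / (d * y 0), y 4 / c₃] : Fin 5 → ℂ) 1,
          c₆ * (![y 0, y 1 / c₄, y 2 / c₆, (y 3 + κ) / (d * y 0), y 4 / c₃] : Fin 5 → ℂ) 2,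
          d * (![y 0, y 1 / c₄, y 2 / c₆, (y 3 + κ) / (d * y 0), y 4 / c₃] : Fin 5 → ℂ) 0 *
            (![y 0, y 1 / c₄, y 2 / c₆, (y 3 + κ) / (d * y 0), y 4 / c₃] : Fin 5 → ℂ) 3 - κ,
          c₃ * (![y 0, y 1 / c₄, y 2 / c₆, (y 3 + κ) / (d * y 0), y 4 / c₃] : Fin 5 → ℂ) 4] = y := by
        funext i
        fin_cases i
        · simp
        · simp [mul_div_cancel₀ _ h₄]
        · simp [mul_div_cancel₀ _ h₆]
        · change d * y 0 * ((y 3 + κ) / (d * y 0)) - κ = y 3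
          rw [mul_div_cancel₀ _ (mul_ne_zero hd hy)]
          ring
        · simp [mul_div_cancel₀ _ h₃]
      rw [h3] at h2
      have h4 : eval y (MvPolynomial.map (Int.castRingHom ℂ) p) = aeval y p := by
        rw [eval_map, aeval_def]
        congr 1
      rw [h4, ← h2, mul_zero]
  rcases mul_eq_zero.1 h1 with h2 | h2
  · exact absurd h2 (X_ne_zero 0)
  · apply map_injective (Int.castRingHom ℂ) (RingHom.injective_int _)
    rw [h2, map_zero]

/-- package IND3 -/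
theorem ind3 : S_FUN3 → S_GS → S_IND3 := by
  classical
  intro hF hG τ₀ hτ hτi z₀ hz₀ s l l' hl hli c₄ c₆ c₂ c₃ κ h₄ h₆ h₂ h₃ P hP
  have hτ0 : τ₀ ≠ 0 := by
    intro h
    rw [h] at hτi
    simp at hτi
  apply sep_eq_zero
  obtain ⟨Q, hQ⟩ : ∃ Q, Q = sep P := ⟨_, rfl⟩
  rw [← hQ]
  by_contra hQ0
  let e := Q.support.equivFin
  -- the data
  let L : (Fin s →₀ ℕ) → ℂ := fun m => ∑ k, (m k : ℂ) * l k
  let L' : (Fin s →₀ ℕ) → ℂ := fun m => ∑ k, (m k : ℂ) * l' k
  let B : (Fin s →₀ ℕ) → MvPolynomial (Fin 5) ℂ := fun m =>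
    aeval (gg c₄ c₆ (c₂ / τ₀) c₃ κ) (Q.coeff m)
  have hexp : ∀ m : Fin s →₀ ℕ, IsAlgebraic ℚ (Complex.exp (L m)) := by
    intro m
    change IsAlgebraic ℚ (Complex.exp (∑ k, (m k : ℂ) * l k))
    rw [Complex.exp_sum]
    refine (mem_algebraicClosure_iff (F := ℚ) (E := ℂ)).1 ?_
    refine prod_mem fun k _ => ?_
    rw [Complex.exp_nat_mul]
    exact pow_mem ((mem_algebraicClosure_iff (F := ℚ) (E := ℂ)).2 (hl k)) _
  have hinj : ∀ m m' : Fin s →₀ ℕ, Complex.exp (L m / τ₀) = Complex.exp (L m' / τ₀) → m = m' := by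
    intro m m' h
    rw [Complex.exp_eq_exp_iff_exists_int] at h
    obtain ⟨n, hn⟩ := h
    have h1 : L m - L m' = 2 * Real.pi * Complex.I * n * τ₀ := by
      field_simp at hn
      linear_combination hn
    have h2 : IsAlgebraic ℚ (Complex.exp (L m - L m')) := by
      rw [Complex.exp_sub, div_eq_mul_inv]
      exact (hexp m).mul (hexp m').inv
    have h3 := hG τ₀ hτ hτi (L m - L m') h2 n h1
    rw [h3] at h1
    have h4 : ∑ k, ((m k : ℚ) - m' k) • l k = 0 := by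
      have : ∑ k, ((m k : ℚ) - m' k) • l k = L m - L m' := by
        change _ = (∑ k, (m k : ℂ) * l k) - ∑ k, (m' k : ℂ) * l k
        rw [← Finset.sum_sub_distrib]
        refine Finset.sum_congr rfl fun k _ => ?_
        rw [Rat.smul_def]
        push_cast
        ring
      rw [this, h1]
      simp
    have h5 := Fintype.linearIndependent_iff.1 hli _ h4
    ext k
    have h6 := h5 k
    have h7 : (m k : ℚ) = m' k := by linarith
    exact_mod_cast h7
  have key := hF z₀ hz₀ Q.support.card (fun i => C (Complex.exp (L' (e.symm i).1)) * B (e.symm i).1)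
    (fun i => L (e.symm i).1 / τ₀) (by
      intro i j hij h
      apply hij
      have := hinj _ _ h
      exact e.symm.injective (Subtype.ext this)) (by
      intro τ hτp hoff
      have hz : τ / τ₀ * τ₀ = τ := div_mul_cancel₀ _ hτ0
      have h1 := hP (τ / τ₀) (by rw [hz]; exact hτp) (by rw [hz]; exact hoff)
      rw [hz, aeval_sep, ← hQ] at h1
      rw [← h1, ← Finset.sum_coe_sort Q.support]
      refine Fintype.sum_equiv e.symm _ _ fun i => ?_
      obtain ⟨m, hm⟩ := e.symm i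
      change aeval ![τ, EG 4 τ, EG 6 τ, EH τ, EP z₀ τ] (C (Complex.exp (L' m)) * B m) *
          Complex.exp (L m / τ₀ * τ) =
        aeval ![τ, c₄ * EG 4 τ, c₆ * EG 6 τ, c₂ * (τ / τ₀) * EH τ - κ, c₃ * EP z₀ τ] (Q.coeff m) *
          ∏ k, Complex.exp (τ / τ₀ * l k + l' k) ^ m k
      have h2 : ∏ k, Complex.exp (τ / τ₀ * l k + l' k) ^ m k =
          Complex.exp (L' m) * Complex.exp (L m / τ₀ * τ) := by
        rw [← Complex.exp_add]
        have : ∀ k, Complex.exp (τ / τ₀ * l k + l' k) ^ m k =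
            Complex.exp ((m k : ℂ) * (τ / τ₀ * l k + l' k)) := fun k => (Complex.exp_nat_mul _ _).symm
        rw [Finset.prod_congr rfl fun k _ => this k, ← Complex.exp_sum]
        congr 1
        change _ = (∑ k, (m k : ℂ) * l' k) + (∑ k, (m k : ℂ) * l k) / τ₀ * τ
        rw [Finset.sum_div, Finset.sum_mul, ← Finset.sum_add_distrib]
        refine Finset.sum_congr rfl fun k _ => ?_
        field_simp
        ring
      have h3 : aeval ![τ, EG 4 τ, EG 6 τ, EH τ, EP z₀ τ] (B m) =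
          aeval ![τ, c₄ * EG 4 τ, c₆ * EG 6 τ, c₂ * (τ / τ₀) * EH τ - κ, c₃ * EP z₀ τ]
            (Q.coeff m) := by
        have h4 := eval_gg c₄ c₆ (c₂ / τ₀) c₃ κ ![τ, EG 4 τ, EG 6 τ, EH τ, EP z₀ τ] (Q.coeff m)
        have h5 : (![(![τ, EG 4 τ, EG 6 τ, EH τ, EP z₀ τ] : Fin 5 → ℂ) 0,
            c₄ * (![τ, EG 4 τ, EG 6 τ, EH τ, EP z₀ τ] : Fin 5 → ℂ) 1,
            c₆ * (![τ, EG 4 τ, EG 6 τ, EH τ, EP z₀ τ] : Fin 5 → ℂ) 2,
            c₂ / τ₀ * (![τ, EG 4 τ, EG 6 τ, EH τ, EP z₀ τ] : Fin 5 → ℂ) 0 *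
              (![τ, EG 4 τ, EG 6 τ, EH τ, EP z₀ τ] : Fin 5 → ℂ) 3 - κ,
            c₃ * (![τ, EG 4 τ, EG 6 τ, EH τ, EP z₀ τ] : Fin 5 → ℂ) 4] : Fin 5 → ℂ) =
            ![τ, c₄ * EG 4 τ, c₆ * EG 6 τ, c₂ * (τ / τ₀) * EH τ - κ, c₃ * EP z₀ τ] := by
          funext i
          fin_cases i
          · rfl
          · rfl
          · rfl
          · change c₂ / τ₀ * τ * EH τ - κ = c₂ * (τ / τ₀) * EH τ - κ
            ring
          · rfl
        rw [h5] at h4
        rw [← h4, aeval_eq_eval]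
      rw [map_mul, h2, h3, aeval_C, Algebra.algebraMap_self, RingHom.id_apply]
      ring)
  obtain ⟨m, hm⟩ := Finset.nonempty_of_ne_empty (fun h => hQ0 (support_eq_empty.1 h))
  have h1 := key (e ⟨m, hm⟩)
  simp only [Equiv.symm_apply_apply] at h1
  have h2' : B m = 0 := by
    rcases mul_eq_zero.1 h1 with h | h
    · exfalso
      rw [C_eq_zero] at h
      exact Complex.exp_ne_zero _ h
    · exact h
  exact mem_support_iff.1 hm (gg_injective c₄ c₆ (c₂ / τ₀) c₃ κ h₄ h₆ (div_ne_zero h₂ hτ0) h₃ _ h2')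

end Pool.Agent.P8H71.ET.I3
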